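import Pool.Agent.MP_86c931_ag.H56.RowsA

/-! Limits in deformations, and coefficients in a Moyal algebra. -/

namespace Pool.Agent.MP_86c931_ag.H98

open H56
open scoped PowerSeries

section Limits

variable {C : Type} [Ring C] [Algebra ℂ⟦X⟧ C]

/-- series with terms in a subalgebra have sums in the subalgebra -/
def Summ (C' : Subalgebra ℂ⟦X⟧ C) : Prop :=
  ∀ d : ℕ → C, (∀ i, d i ∈ C') →
    ∃ s : ℕ → C, (∀ n, s n ∈ C') ∧ ∀ n, s n = d n + hb • s (n + 1)

lemma tele {u d s : ℕ → C} (hu : ∀ n, u n - u (n + 1) = hb ^ n • d n)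
    (hs : ∀ n, s n = d n + hb • s (n + 1)) (n : ℕ) : Dv n (u 0 - s 0 - u n) := by
  have key : ∀ n, u 0 - s 0 - u n = -(hb ^ n • s n) := by
    intro n
    induction n with
    | zero => simp
    | succ n ih =>
      have h1 : u 0 - s 0 - u (n + 1) = (u 0 - s 0 - u n) + (u n - u (n + 1)) := by abel
      rw [h1, ih, hu, hs n, smul_add, pow_succ, mul_smul]
      abel
  rw [key]
  exact (Dv.pow_smul _ _).neg

lemma dv_of_rec {e : ℕ → C} (h : ∀ n, e n = hb • e (n + 1)) (n : ℕ) : Dv n (e 0) := by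
  refine ⟨e n, ?_⟩
  induction n with
  | zero => simp
  | succ n ih => rw [ih, h n, pow_succ, mul_smul]

lemma eq_of_sep (sep : ∀ t : C, (∀ n, Dv n t) → t = 0) {u : ℕ → C} {t t' : C}
    (h : ∀ n, Dv n (t - u n)) (h' : ∀ n, Dv n (t' - u n)) : t = t' :=
  sub_eq_zero.1 (sep _ fun n => by
    have := (h n).sub (h' n)
    rwa [sub_sub_sub_cancel_right] at this)

lemma seqComplete_of (h : Summ (⊤ : Subalgebra ℂ⟦X⟧ C))
    (sep : ∀ t : C, (∀ n, Dv n t) → t = 0) : SeqComplete C := by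
  intro u hu
  choose d hd using hu
  obtain ⟨s, -, hs⟩ := h d fun _ => trivial
  exact ⟨u 0 - s 0, tele hd hs, fun t ht => eq_of_sep sep ht (tele hd hs)⟩

lemma seqClosed_of {C' : Subalgebra ℂ⟦X⟧ C} (h : Summ C')
    (sep : ∀ t : C, (∀ n, Dv n t) → t = 0)
    (hdv : ∀ n, ∀ c ∈ C', Dv n c → ∃ d ∈ C', c = hb ^ n • d) : SeqClosed C' := by
  intro t u hu ht
  have h1 : ∀ n, ∃ d ∈ C', u n - u (n + 1) = hb ^ n • d := fun n =>
    hdv n _ (sub_mem (hu n) (hu _)) (by
      have := ((ht (n + 1)).mono n.le_succ).sub (ht n)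
      rwa [sub_sub_sub_cancel_left] at this)
  choose d hd' hd using h1
  obtain ⟨s, hs', hs⟩ := h d hd'
  rw [eq_of_sep sep ht (tele hd hs)]
  exact sub_mem (hu 0) (hs' 0)

lemma inducesVia_of {O O' : Type} [CommRing O] [Algebra ℂ O] (Q : PQ O C) (tf : TF C)
    (ι : O' → O) (β : O' → O' → O')
    (h : ∀ f g, ∃ a b c : C, Q.π a = ι f ∧ Q.π b = ι g ∧ a * b - b * a = hb • c ∧
      Q.π c = ι (β f g)) : Q.InducesVia ι β := by
  intro a b c f g ha hb' hc
  obtain ⟨a0, b0, c0, h1, h2, h3, h4⟩ := h f g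
  obtain ⟨a1, e1⟩ := Q.ker (a - a0) (by rw [map_sub, ha, h1, sub_self])
  obtain ⟨b1, e2⟩ := Q.ker (b - b0) (by rw [map_sub, hb', h2, sub_self])
  obtain ⟨x, hx⟩ := Q.comm_dv a0 b1
  obtain ⟨y, hy⟩ := Q.comm_dv a1 b
  have e3 : a * b - b * a = (a0 * b0 - b0 * a0) + hb • (a0 * b1 - b1 * a0) +
      hb • (a1 * b - b * a1) := by
    rw [smul_sub, smul_sub, ← mul_smul_comm, ← smul_mul_assoc, ← smul_mul_assoc,
      ← mul_smul_comm, ← e1, ← e2]
    noncomm_ring
  have e4 : c - (c0 + hb • (x + y)) = 0 := tf _ (by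
    rw [smul_sub, ← hc, e3, h3, hx, hy, smul_add, smul_add, smul_add, add_assoc, sub_self])
  rw [sub_eq_zero.1 e4, map_add, Q.π_hb_smul, add_zero, h4]

end Limits

section Moy

variable {T : Type} [CommRing T] [Algebra ℂ T] {σ : Type} [Fintype σ]
  {d : σ → Derivation ℂ T T} {dual : σ → σ} {ε : σ → ℂ} (Y : Moyal T d dual ε)

/-- coefficients -/
noncomputable def co (n : ℕ) : Y.W →+ T :=
  (PowerSeries.coeff n : T⟦X⟧ →ₗ[T] T).toAddMonoidHom.comp Y.ser.toLinearMap.toAddMonoidHom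

/-- the element with given coefficients -/
noncomputable def mkW (u : ℕ → T) : Y.W := Y.ser.symm (PowerSeries.mk u)

/-- constants -/
noncomputable def Cst (f : T) : Y.W := Y.ser.symm (PowerSeries.C f)

/-- division by the parameter -/
noncomputable def shift (w : Y.W) : Y.W := mkW Y fun n => co Y (n + 1) w

variable {Y}

lemma co_def (n : ℕ) (w : Y.W) : co Y n w = PowerSeries.coeff n (Y.ser w) := rfl

lemma co_ext {a b : Y.W} (h : ∀ n, co Y n a = co Y n b) : a = b :=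
  Y.ser.injective (PowerSeries.ext h)

lemma co_mkW (n : ℕ) (u : ℕ → T) : co Y n (mkW Y u) = u n := by
  rw [co_def, mkW, LinearEquiv.apply_symm_apply, PowerSeries.coeff_mk]

lemma co_Cst (n : ℕ) (f : T) : co Y n (Cst Y f) = if n = 0 then f else 0 := by
  rw [co_def, Cst, LinearEquiv.apply_symm_apply, PowerSeries.coeff_C]

lemma co_zero_Cst (f : T) : co Y 0 (Cst Y f) = f := by rw [co_Cst, if_pos rfl]

lemma co_succ_Cst (n : ℕ) (f : T) : co Y (n + 1) (Cst Y f) = 0 := by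
  rw [co_Cst, if_neg n.succ_ne_zero]

lemma Cst_zero : Cst Y 0 = 0 := by rw [Cst, map_zero, map_zero]

lemma Cst_neg (f : T) : Cst Y (-f) = -Cst Y f := by rw [Cst, map_neg, map_neg, Cst]

lemma Cst_one : Cst Y 1 = 1 := by
  rw [Cst, map_one, LinearEquiv.symm_apply_eq, Y.ser_one]

lemma ser_smul (c : ℂ⟦X⟧) (w : Y.W) :
    Y.ser (c • w) = PowerSeries.map (algebraMap ℂ T) c * Y.ser w := by
  rw [map_smul, Algebra.smul_def, PowerSeries.algebraMap_apply'']

lemma co_hb_zero (w : Y.W) : co Y 0 (hb • w) = 0 := by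
  rw [co_def, ser_smul, PowerSeries.map_X, PowerSeries.coeff_zero_X_mul]

lemma co_hb_succ (n : ℕ) (w : Y.W) : co Y (n + 1) (hb • w) = co Y n w := by
  rw [co_def, ser_smul, PowerSeries.map_X, PowerSeries.coeff_succ_X_mul, co_def]

lemma co_alg (n : ℕ) (c : ℂ⟦X⟧) :
    co Y n (algebraMap ℂ⟦X⟧ Y.W c) = algebraMap ℂ T (PowerSeries.coeff n c) := by
  rw [Algebra.algebraMap_eq_smul_one, co_def, ser_smul, Y.ser_one, mul_one, PowerSeries.coeff_map]

lemma co_zero_mul (a b : Y.W) : co Y 0 (a * b) = co Y 0 a * co Y 0 b := Y.coeff_zero_mul a b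

lemma co_zero_one : co Y 0 1 = 1 := by rw [← Cst_one, co_zero_Cst]

lemma co_shift (n : ℕ) (w : Y.W) : co Y n (shift Y w) = co Y (n + 1) w := co_mkW _ _

lemma eq_hb_shift {w : Y.W} (h : co Y 0 w = 0) : w = hb • shift Y w := co_ext fun n => by
  cases n with
  | zero => rw [h, co_hb_zero]
  | succ n => rw [co_hb_succ, co_shift]

lemma tfW : TF Y.W := fun w h => co_ext fun n => by
  rw [← co_hb_succ, h, map_zero, map_zero]

lemma co_of_dv {n : ℕ} {w : Y.W} (h : Dv (n + 1) w) : co Y n w = 0 := by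
  induction n generalizing w with
  | zero =>
    obtain ⟨e, rfl⟩ := h
    rw [zero_add, pow_one, co_hb_zero]
  | succ n ih =>
    obtain ⟨e, rfl⟩ := h
    rw [pow_succ', mul_smul, co_hb_succ]
    exact ih ⟨e, rfl⟩

lemma sepW (w : Y.W) (h : ∀ n, Dv n w) : w = 0 := co_ext fun n => by
  rw [co_of_dv (h _), map_zero]

lemma summW (A : Subalgebra ℂ T) (e : ℕ → Y.W) (he : ∀ i n, co Y n (e i) ∈ A) :
    ∃ s : ℕ → Y.W, (∀ i n, co Y n (s i) ∈ A) ∧ ∀ i, s i = e i + hb • s (i + 1) := by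
  refine ⟨fun i => mkW Y fun n => ∑ j ∈ Finset.range (n + 1), co Y (n - j) (e (i + j)),
    fun i n => ?_, fun i => co_ext fun n => ?_⟩
  · rw [co_mkW]
    exact A.sum_mem fun j _ => he _ _
  · rw [map_add, co_mkW, Finset.sum_range_succ']
    cases n with
    | zero => simp [co_hb_zero]
    | succ n =>
      rw [co_hb_succ, co_mkW, add_comm]
      congr 1
      refine Finset.sum_congr rfl fun j _ => ?_
      rw [Nat.add_sub_add_right, add_assoc, add_comm 1 j]

variable (Y) in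
/-- series with coefficients in a stable subalgebra -/
def SerIn (A : Subalgebra ℂ T) (hA : ∀ s, ∀ f ∈ A, d s f ∈ A) : Subalgebra ℂ⟦X⟧ Y.W where
  carrier := {w | ∀ n, co Y n w ∈ A}
  mul_mem' ha hb' := Y.mul_mem A hA _ _ ha hb'
  add_mem' ha hb' n := by rw [map_add]; exact A.add_mem (ha n) (hb' n)
  algebraMap_mem' c n := by rw [co_alg]; exact A.algebraMap_mem _

lemma co_Cst_mem {A : Subalgebra ℂ T} {f : T} (hf : f ∈ A) (n : ℕ) : co Y n (Cst Y f) ∈ A := by
  rw [co_Cst]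
  split_ifs
  · exact hf
  · exact A.zero_mem

lemma co_zero_comm (a b : Y.W) : co Y 0 (a * b - b * a) = 0 := by
  rw [map_sub, co_zero_mul, co_zero_mul, mul_comm, sub_self]

section quad

variable {H : T} (hH : ∀ s t u, d s (d t (d u H)) = 0) {D : Derivation ℂ T T}
  (hD : ∀ f, brk d dual ε f H = D f)

include hH hD

lemma co_comm_quad (w : Y.W) (n : ℕ) :
    co Y (n + 1) (w * Cst Y H - Cst Y H * w) = D (co Y n w) :=
  (Y.quad H hH w n).trans (hD _)

lemma comm_quad_iff (w : Y.W) : w * Cst Y H = Cst Y H * w ↔ ∀ n, D (co Y n w) = 0 := by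
  rw [← sub_eq_zero]
  refine ⟨fun h n => by rw [← co_comm_quad hH hD, h, map_zero], fun h => co_ext fun n => ?_⟩
  cases n with
  | zero => rw [co_zero_comm, map_zero]
  | succ n => rw [co_comm_quad hH hD, h, map_zero]

lemma Cst_comm_quad (f : T) : Cst Y f * Cst Y H = Cst Y H * Cst Y f + hb • Cst Y (D f) := by
  rw [← sub_eq_iff_eq_add']
  refine co_ext fun n => ?_
  cases n with
  | zero => rw [co_zero_comm, co_hb_zero]
  | succ n =>
    rw [co_comm_quad hH hD, co_hb_succ, co_Cst, co_Cst]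
    split_ifs
    · rfl
    · exact map_zero _

end quad

end Moy

end Pool.Agent.MP_86c931_ag.H98
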