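import Pool.Agent.MP_86c931_ag.H56.RowsC
import Pool.Agent.MP_86c931_ag.H98.Moy

/-! The quantum reduction at the generic point and its local subalgebras. -/

namespace Pool.Agent.MP_86c931_ag.H98

open H56
open scoped PowerSeries

section Classical

variable {K : Type} [Field K] [Algebra ℂ K] (θ : Pab →ₐ[ℂ] K)

open Classical in
/-- the charts whose functions lie in `S` -/
noncomputable def IS (S : Subalgebra ℂ K) : Finset K6 :=
  Finset.univ.filter fun k => ∀ p : Pab, (p : F) ∈ PIb {k} → θ p ∈ S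

/-- admissible denominators -/
structure Den (S : Subalgebra ℂ K) (g : Pab) : Prop where
  mem : (g : F) ∈ PI (IS θ S)
  ne : θ g ≠ 0
  inv : (θ g)⁻¹ ∈ S

open Classical in
/-- the value of an invariant fraction -/
noncomputable def piK (p : F) : K :=
  if h : ∃ x : Pab × Pab, θ x.1 ≠ 0 ∧ (x.1 : F) * p = x.2 then θ h.choose.2 / θ h.choose.1 else 0

variable {θ} {S S' : Subalgebra ℂ K}

lemma mem_IS {k : K6} : k ∈ IS θ S ↔ ∀ p : Pab, (p : F) ∈ PIb {k} → θ p ∈ S := by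
  simp [IS]

lemma IS_mono (h : S ≤ S') : IS θ S ⊆ IS θ S' := fun _ hk =>
  mem_IS.2 fun p hp => h (mem_IS.1 hk p hp)

lemma IS_top : IS θ ⊤ = Finset.univ :=
  Finset.eq_univ_of_forall fun _ => mem_IS.2 fun _ _ => trivial

lemma Den.one : Den θ S 1 :=
  ⟨one_mem _, by rw [map_one]; exact one_ne_zero, by rw [map_one, inv_one]; exact one_mem _⟩

lemma Den.mul {g g' : Pab} (h : Den θ S g) (h' : Den θ S g') : Den θ S (g * g') :=
  ⟨mul_mem h.mem h'.mem, by rw [map_mul]; exact mul_ne_zero h.ne h'.ne, by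
    rw [map_mul, mul_inv]; exact mul_mem h.inv h'.inv⟩

lemma Den.mono {g : Pab} (h : Den θ S g) (hS : S ≤ S') : Den θ S' g :=
  ⟨PI_mono (IS_mono hS) h.mem, h.ne, hS h.inv⟩

lemma Den.ne_zero {g : Pab} (h : Den θ S g) : (g : F) ≠ 0 := fun e =>
  h.ne (by rw [show g = 0 from Subtype.ext e, map_zero])

variable (θ S) in
/-- fractions with admissible denominators -/
noncomputable def PS : Subalgebra ℂ F where
  carrier := {p | ∃ g, Den θ S g ∧ (g : F) * p ∈ PI (IS θ S)}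
  mul_mem' := by
    rintro a b ⟨g, hg, ha⟩ ⟨g', hg', hb'⟩
    refine ⟨g * g', hg.mul hg', ?_⟩
    rw [MulMemClass.coe_mul, mul_mul_mul_comm]
    exact mul_mem ha hb'
  add_mem' := by
    rintro a b ⟨g, hg, ha⟩ ⟨g', hg', hb'⟩
    refine ⟨g * g', hg.mul hg', ?_⟩
    convert add_mem (mul_mem hg'.mem ha) (mul_mem hg.mem hb') using 1
    rw [MulMemClass.coe_mul]
    ring
  algebraMap_mem' c := ⟨1, Den.one, mul_mem (one_mem _) (Subalgebra.algebraMap_mem _ c)⟩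

lemma PS_mono (h : S ≤ S') : PS θ S ≤ PS θ S' := by
  rintro p ⟨g, hg, hp⟩
  exact ⟨g, hg.mono h, PI_mono (IS_mono h) hp⟩

lemma PI_le_PS : PI (IS θ S) ≤ PS θ S := fun _ hp => ⟨1, Den.one, mul_mem (one_mem _) hp⟩

lemma PS_der (s : S18) : ∀ f ∈ PS θ S, dF s f ∈ PS θ S := by
  rintro f ⟨g, hg, hf⟩
  refine ⟨g * g, hg.mul hg, ?_⟩
  convert sub_mem (mul_mem hg.mem (dF_mem_PI s hf)) (mul_mem hf (dF_mem_PI s hg.mem)) using 1
  rw [MulMemClass.coe_mul, Derivation.leibniz, smul_eq_mul, smul_eq_mul]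
  ring

lemma div_mem_Inv {a g : F} (ha : a ∈ H56.Inv) (hg : g ∈ H56.Inv) : a / g ∈ H56.Inv :=
  ⟨by rw [Derivation.leibniz_div, ha.1, hg.1]; simp,
    by rw [Derivation.leibniz_div, ha.2, hg.2]; simp⟩

lemma div_mem_PS {g : Pab} (hg : Den θ S g) {a : F} (ha : a ∈ PI (IS θ S)) :
    a / g ∈ PS θ S := ⟨g, hg, by rwa [mul_div_cancel₀ _ hg.ne_zero]⟩

lemma div_mem_PB {g : Pab} (hg : Den θ S g) {a : F} (ha : a ∈ PIb (IS θ S)) :
    a / g ∈ PS θ S ⊓ H56.Inv := ⟨div_mem_PS hg ha.1, div_mem_Inv ha.2 g.2.2⟩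

lemma frac {p : F} (hp : p ∈ PS θ S ⊓ H56.Inv) :
    ∃ g q : Pab, Den θ S g ∧ (q : F) ∈ PIb (IS θ S) ∧ (g : F) * p = q := by
  obtain ⟨⟨g, hg, h⟩, hi⟩ := hp
  have h1 : (g : F) * p ∈ PIb (IS θ S) := ⟨h, mul_mem g.2.2 hi⟩
  exact ⟨g, ⟨_, PIb_le _ h1⟩, hg, h1, rfl⟩

lemma piK_spec {p : F} {g q : Pab} (hg : θ g ≠ 0) (h : (g : F) * p = q) :
    piK θ p = θ q / θ g := by
  have h' : ∃ x : Pab × Pab, θ x.1 ≠ 0 ∧ (x.1 : F) * p = x.2 := ⟨(g, q), hg, h⟩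
  rw [piK, dif_pos h', div_eq_div_iff h'.choose_spec.1 hg, ← map_mul, ← map_mul]
  congr 1
  refine Subtype.ext ?_
  rw [MulMemClass.coe_mul, MulMemClass.coe_mul, ← h'.choose_spec.2, ← h]
  ring

lemma piK_coe (q : Pab) : piK θ q = θ q := by
  rw [piK_spec (g := 1) (q := q) (by rw [map_one]; exact one_ne_zero) (one_mul _), map_one, div_one]

lemma piK_mul {p p' : F} (hp : p ∈ PS θ S ⊓ H56.Inv) (hp' : p' ∈ PS θ S ⊓ H56.Inv) :
    piK θ (p * p') = piK θ p * piK θ p' := by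
  obtain ⟨g, q, hg, -, h⟩ := frac hp
  obtain ⟨g', q', hg', -, h'⟩ := frac hp'
  rw [piK_spec hg.ne h, piK_spec hg'.ne h', piK_spec (q := q * q') (hg.mul hg').ne (by
    rw [MulMemClass.coe_mul, MulMemClass.coe_mul, ← h, ← h']; ring), map_mul, map_mul,
    div_mul_div_comm]

lemma piK_add {p p' : F} (hp : p ∈ PS θ S ⊓ H56.Inv) (hp' : p' ∈ PS θ S ⊓ H56.Inv) :
    piK θ (p + p') = piK θ p + piK θ p' := by
  obtain ⟨g, q, hg, -, h⟩ := frac hp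
  obtain ⟨g', q', hg', -, h'⟩ := frac hp'
  rw [piK_spec hg.ne h, piK_spec hg'.ne h', piK_spec (q := q * g' + g * q') (hg.mul hg').ne (by
    rw [AddMemClass.coe_add, MulMemClass.coe_mul, MulMemClass.coe_mul, MulMemClass.coe_mul,
      ← h, ← h']; ring), map_add, map_mul, map_mul, map_mul, div_add_div _ _ hg.ne hg'.ne]

lemma piK_L (hθ : ∀ p : Pab, (p : F) ∈ JF → θ p = 0) {a b : F} (ha : a ∈ PS θ ⊤)
    (hb' : b ∈ PS θ ⊤) (hi : a * He + b * Hh ∈ H56.Inv) : piK θ (a * He + b * Hh) = 0 := by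
  obtain ⟨g, hg, h⟩ := ha
  obtain ⟨g', hg', h'⟩ := hb'
  rw [IS_top] at h h'
  have h1 : (g' : F) * (g * a) ∈ Pa := mul_mem g'.2.1 h
  have h2 : (g : F) * (g' * b) ∈ Pa := mul_mem g.2.1 h'
  have h3 : ((g * g' : Pab) : F) * (a * He + b * Hh) = g' * (g * a) * He + g * (g' * b) * Hh := by
    rw [MulMemClass.coe_mul]; ring
  have h4 : ((g * g' : Pab) : F) * (a * He + b * Hh) ∈ Pab := by
    refine ⟨?_, mul_mem (g * g').2.2 hi⟩
    rw [h3]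
    exact add_mem (mul_mem h1 (iF_mem_PI _ _)) (mul_mem h2 (iF_mem_PI _ _))
  rw [piK_spec (q := ⟨_, h4⟩) (hg.mul hg').ne rfl, hθ _ ⟨_, h1, _, h2, h3⟩, zero_div]

lemma ratio_mem (k l : K6) : zF 0 k / zF 0 l ∈ PIb {l} := by
  refine ⟨?_, ?_, ?_⟩
  · rw [div_eq_mul_inv]
    exact mul_mem (zF_mem_PI _ _ _) (inv_mem_PI (Finset.mem_singleton_self l))
  · rw [Derivation.leibniz_div, De_z0, De_z0]; simp
  · rw [Derivation.leibniz_div, Dh_z0, Dh_z0, smul_eq_mul, smul_eq_mul, smul_eq_mul]; ring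

lemma theta_mem (hstr : RowSTR) {k : K6} (hk : k ∈ IS θ S) (q : Pab)
    (hq : (q : F) ∈ PIb (IS θ S)) : θ q ∈ S := by
  obtain ⟨j, hj⟩ := (hstr _ k hk q hq).1
  let r : K6 → Pab := fun l => ⟨_, PIb_le _ (ratio_mem k l)⟩
  have e : q = ⟨_, PIb_le _ hj⟩ * (∏ l ∈ IS θ S, r l) ^ j := by
    refine Subtype.ext ?_
    rw [MulMemClass.coe_mul, SubmonoidClass.coe_pow, SubmonoidClass.coe_finsetProd]
    change _ = _ * _ * _
    rw [mul_assoc, ← mul_pow, ← Finset.prod_mul_distrib, Finset.prod_eq_one, one_pow, mul_one]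
    intro l _
    have h1 := zF_ne_zero 0 k
    have h2 := zF_ne_zero 0 l
    change _ * (zF 0 k / zF 0 l) = 1
    field_simp
  rw [e, map_mul, map_pow, map_prod]
  exact S.mul_mem (mem_IS.1 hk _ hj)
    (S.pow_mem (S.prod_mem fun l hl => mem_IS.1 hl (r l) (ratio_mem k l)) _)

lemma piK_mem (hstr : RowSTR) {k : K6} (hk : k ∈ IS θ S) {p : F} (hp : p ∈ PS θ S ⊓ H56.Inv) :
    piK θ p ∈ S := by
  obtain ⟨g, q, hg, hq, h⟩ := frac hp
  rw [piK_spec hg.ne h, div_eq_mul_inv]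
  exact mul_mem (theta_mem hstr hk q hq) hg.inv

lemma piK_ker (hstr : RowSTR) (hθ : ∀ p : Pab, θ p = 0 → (p : F) ∈ JF) {k : K6}
    (hk : k ∈ IS θ S) {p : F} (hp : p ∈ PS θ S ⊓ H56.Inv) (h0 : piK θ p = 0) :
    ∃ a ∈ PS θ S ⊓ H56.Inv, ∃ b ∈ PS θ S ⊓ H56.Inv,
      p = a * ((zF 0 k)⁻¹ * He) + b * (Hh + zF 1 k / zF 0 k * He) := by
  obtain ⟨g, q, hg, hq, h⟩ := frac hp
  rw [piK_spec hg.ne h, div_eq_zero_iff, or_iff_left hg.ne] at h0
  obtain ⟨a, ha, b, hb', e⟩ := (hstr _ k hk q hq).2 (hθ q h0)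
  refine ⟨_, div_mem_PB hg ha, _, div_mem_PB hg hb', mul_left_cancel₀ hg.ne_zero ?_⟩
  have := hg.ne_zero
  rw [h, e]
  field_simp

lemma syz_Pa (hreg : RowREG) {a b : F} (ha : a ∈ Pa) (hb' : b ∈ Pa) (h : a * He + b * Hh = 0) :
    ∃ γ ∈ Pa, a = γ * Hh ∧ b = -(γ * He) := by
  obtain ⟨m, n, h1⟩ := ha
  obtain ⟨m', n', h2⟩ := hb'
  have hx := xI_ne_zero Finset.univ
  obtain ⟨r, e1, e2⟩ := hreg.2.2.1 (n * (∏ k, zP 0 k) ^ m') (n' * (∏ k, zP 0 k) ^ m) (iF_inj (by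
    simp only [map_add, map_mul, map_pow, ← xI_eq, ← h1, ← h2, map_zero]
    change _ * He + _ * Hh = 0
    linear_combination xI Finset.univ ^ (m + m') * h))
  have e3 := congrArg iF e1
  have e4 := congrArg iF e2
  simp only [map_neg, map_mul, map_pow, ← xI_eq, ← h1, ← h2] at e3 e4
  change _ = _ * Hh at e3
  change _ = -(_ * He) at e4
  refine ⟨iF r / xI Finset.univ ^ (m + m'), ⟨m + m', r, div_mul_cancel₀ _ (pow_ne_zero _ hx)⟩,
    ?_, ?_⟩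
  · field_simp
    linear_combination e3
  · field_simp
    linear_combination e4

lemma syz (hreg : RowREG) {a b : F} (ha : a ∈ PS θ ⊤) (hb' : b ∈ PS θ ⊤)
    (h : a * He + b * Hh = 0) : ∃ γ ∈ PS θ ⊤, a = γ * Hh ∧ b = -(γ * He) := by
  obtain ⟨g, hg, h1⟩ := ha
  obtain ⟨g', hg', h2⟩ := hb'
  rw [IS_top] at h1 h2
  obtain ⟨γ, hγ, e1, e2⟩ := syz_Pa hreg (mul_mem g'.2.1 h1) (mul_mem g.2.1 h2) (by
    linear_combination (g : F) * g' * h)
  have n1 := hg.ne_zero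
  have n2 := hg'.ne_zero
  refine ⟨_, div_mem_PS (hg.mul hg') (a := γ) (by rwa [IS_top]), ?_, ?_⟩
  · rw [MulMemClass.coe_mul]
    field_simp
    linear_combination e1
  · rw [MulMemClass.coe_mul]
    field_simp
    linear_combination e2

lemma third_om (α β : Fin 3) (s t u : S18) : dF s (dF t (dF u (om (zF α) (zF β)))) = 0 := by
  have dd : ∀ (s t : S18) (γ : Fin 3) (k : K6), dF s (dF t (zF γ k)) = 0 := by
    intro s t γ k
    rw [zF, zP, dF_X]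
    split_ifs
    · exact Derivation.map_one_eq_zero _
    · exact map_zero _
  simp only [der_om, map_add, dd, map_zero, om_zero_left, om_zero_right, add_zero]

lemma third_He (s t u : S18) : dF s (dF t (dF u He)) = 0 := He_eq ▸ third_om 0 1 s t u

lemma third_Hh (s t u : S18) : dF s (dF t (dF u Hh)) = 0 := Hh_eq ▸ third_om 0 2 s t u

lemma brk_He (f : F) : brk dF S18.dual S18.sgn f He = De f := by
  rw [← adF_He, adF_apply]; rfl

lemma brk_Hh (f : F) : brk dF S18.dual S18.sgn f Hh = Dh f := by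
  rw [← adF_Hh, adF_apply]; rfl

end Classical

section Quantum

variable {K : Type} [Field K] [Algebra ℂ K] (Y : Moyal F dF S18.dual S18.sgn)
  (θ : Pab →ₐ[ℂ] K)

/-- series of fractions -/
noncomputable def SS (S : Subalgebra ℂ K) : Subalgebra ℂ⟦X⟧ Y.W := SerIn Y (PS θ S) PS_der

/-- invariant series -/
noncomputable def NS (S : Subalgebra ℂ K) : Subalgebra ℂ⟦X⟧ Y.W :=
  SS Y θ S ⊓ Subalgebra.centralizer ℂ⟦X⟧ {Cst Y He, Cst Y Hh}

/-- the left ideal of the two Hamiltonians -/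
def InL (w : Y.W) : Prop :=
  ∃ a ∈ SS Y θ ⊤, ∃ b ∈ SS Y θ ⊤, w = a * Cst Y He + b * Cst Y Hh

variable {Y θ} {S S' : Subalgebra ℂ K}

lemma mem_NS' {w : Y.W} : w ∈ NS Y θ S ↔
    w ∈ SS Y θ S ∧ w * Cst Y He = Cst Y He * w ∧ w * Cst Y Hh = Cst Y Hh * w := by
  rw [NS, Algebra.mem_inf, Subalgebra.mem_centralizer_iff]
  simp only [Set.mem_insert_iff, Set.mem_singleton_iff, forall_eq_or_imp, forall_eq, eq_comm]

lemma mem_NS {w : Y.W} : w ∈ NS Y θ S ↔ ∀ n, co Y n w ∈ PS θ S ⊓ H56.Inv := by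
  rw [mem_NS', comm_quad_iff third_He brk_He, comm_quad_iff third_Hh brk_Hh]
  exact ⟨fun h n => ⟨h.1 n, h.2.1 n, h.2.2 n⟩,
    fun h => ⟨fun n => (h n).1, fun n => (h n).2.1, fun n => (h n).2.2⟩⟩

lemma SS_mono (h : S ≤ S') : SS Y θ S ≤ SS Y θ S' := fun _ hw n => PS_mono h (hw n)

lemma NS_mono (h : S ≤ S') : NS Y θ S ≤ NS Y θ S' := inf_le_inf_right _ (SS_mono h)

lemma Cst_mem_SS {f : F} (hf : f ∈ PI (IS θ S)) : Cst Y f ∈ SS Y θ S :=
  co_Cst_mem (PI_le_PS hf)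

lemma InL.add {a b : Y.W} (ha : InL Y θ a) (hb' : InL Y θ b) : InL Y θ (a + b) := by
  obtain ⟨a, ha, a', ha', rfl⟩ := ha
  obtain ⟨b, hb', b', hb'', rfl⟩ := hb'
  exact ⟨a + b, add_mem ha hb', a' + b', add_mem ha' hb'', by noncomm_ring⟩

lemma InL.mul_left {a c : Y.W} (ha : InL Y θ a) (hc : c ∈ SS Y θ ⊤) : InL Y θ (c * a) := by
  obtain ⟨a, ha, a', ha', rfl⟩ := ha
  exact ⟨c * a, mul_mem hc ha, c * a', mul_mem hc ha', by noncomm_ring⟩

lemma InL.mul_right {a c : Y.W} (ha : InL Y θ a) (hc : c ∈ NS Y θ ⊤) : InL Y θ (a * c) := by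
  obtain ⟨a, ha, a', ha', rfl⟩ := ha
  obtain ⟨h1, h2, h3⟩ := mem_NS'.1 hc
  exact ⟨a * c, mul_mem ha h1, a' * c, mul_mem ha' h1, by
    rw [add_mul, mul_assoc, mul_assoc, mul_assoc, mul_assoc, h2, h3]⟩

lemma inL_zero : InL Y θ 0 := ⟨0, zero_mem _, 0, zero_mem _, by simp⟩

lemma inL_E : InL Y θ (Cst Y He) := ⟨1, one_mem _, 0, zero_mem _, by simp⟩

lemma inL_H : InL Y θ (Cst Y Hh) := ⟨0, zero_mem _, 1, one_mem _, by simp⟩

lemma cE (f : F) : Cst Y f * Cst Y He = Cst Y He * Cst Y f + hb • Cst Y (De f) :=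
  Cst_comm_quad third_He brk_He f

lemma cH (f : F) : Cst Y f * Cst Y Hh = Cst Y Hh * Cst Y f + hb • Cst Y (Dh f) :=
  Cst_comm_quad third_Hh brk_Hh f

lemma EH : Cst Y He * Cst Y Hh = Cst Y Hh * Cst Y He + hb • Cst Y He := by
  rw [cH, Dh_He]

lemma wt_comm {f : F} (h : Dh f = -f) :
    Cst Y f * Cst Y He * Cst Y Hh = Cst Y Hh * (Cst Y f * Cst Y He) := by
  rw [mul_assoc, EH, mul_add, ← mul_assoc, cH, h, Cst_neg, add_mul, mul_smul_comm, smul_mul_assoc,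
    neg_mul, smul_neg, mul_assoc]
  abel

lemma Ehat_mem {k : K6} (hk : k ∈ IS θ S) : Cst Y (zF 0 k)⁻¹ * Cst Y He ∈ NS Y θ S := by
  refine mem_NS'.2 ⟨mul_mem (Cst_mem_SS (inv_mem_PI hk)) (Cst_mem_SS (iF_mem_PI _ _)), ?_,
    wt_comm ?_⟩
  · have : De (zF 0 k)⁻¹ = 0 := by rw [Derivation.leibniz_inv, De_z0, smul_zero]
    rw [← mul_assoc, cE, this, Cst_zero, smul_zero, add_zero]
  · have := zF_ne_zero 0 k
    rw [Derivation.leibniz_inv, Dh_z0, smul_eq_mul]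
    field_simp

lemma Hhat_mem {k : K6} (hk : k ∈ IS θ S) :
    Cst Y Hh + Cst Y (zF 1 k / zF 0 k) * Cst Y He ∈ NS Y θ S := by
  have h0 := zF_ne_zero 0 k
  refine mem_NS'.2 ⟨add_mem (Cst_mem_SS (iF_mem_PI _ _)) (mul_mem (Cst_mem_SS ?_)
    (Cst_mem_SS (iF_mem_PI _ _))), ?_, ?_⟩
  · rw [div_eq_mul_inv]
    exact mul_mem (zF_mem_PI _ _ _) (inv_mem_PI hk)
  · have : De (zF 1 k / zF 0 k) = 1 := by
      rw [Derivation.leibniz_div, De_z0, De_z1, smul_eq_mul, smul_eq_mul, smul_eq_mul]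
      field_simp
      ring
    rw [add_mul, mul_add, EH, ← mul_assoc, cE (zF 1 k / zF 0 k), this, Cst_one, add_mul,
      smul_mul_assoc, one_mul]
    abel
  · rw [add_mul, mul_add, wt_comm]
    rw [Derivation.leibniz_div, Dh_z0, Dh_z1, smul_eq_mul, smul_eq_mul, smul_eq_mul]
    field_simp
    ring

lemma InL.tf (hreg : RowREG) {w : Y.W} (h : InL Y θ (hb • w)) : InL Y θ w := by
  obtain ⟨a, ha, b, hb', e⟩ := h
  have e0 := congrArg (co Y 0) e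
  rw [co_hb_zero, map_add, co_zero_mul, co_zero_mul, co_zero_Cst, co_zero_Cst] at e0
  obtain ⟨γ, hγ, h1, h2⟩ := syz hreg (ha 0) (hb' 0) e0.symm
  have hc : Cst Y γ ∈ SS Y θ ⊤ := co_Cst_mem hγ
  have m1 : a - Cst Y γ * Cst Y Hh ∈ SS Y θ ⊤ :=
    sub_mem ha (mul_mem hc (Cst_mem_SS (iF_mem_PI _ _)))
  have m2 : b + Cst Y γ * Cst Y He ∈ SS Y θ ⊤ :=
    add_mem hb' (mul_mem hc (Cst_mem_SS (iF_mem_PI _ _)))
  have e1 := eq_hb_shift (w := a - Cst Y γ * Cst Y Hh) (by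
    rw [map_sub, co_zero_mul, co_zero_Cst, co_zero_Cst, h1, sub_self])
  have e2 := eq_hb_shift (w := b + Cst Y γ * Cst Y He) (by
    rw [map_add, co_zero_mul, co_zero_Cst, co_zero_Cst, h2, neg_add_cancel])
  refine ⟨shift Y (a - Cst Y γ * Cst Y Hh) - Cst Y γ, sub_mem (fun n => ?_) hc,
    shift Y (b + Cst Y γ * Cst Y He), fun n => ?_, sub_eq_zero.1 (tfW _ ?_)⟩
  · rw [co_shift]; exact m1 _
  · rw [co_shift]; exact m2 _
  · rw [smul_sub, e, smul_add, ← smul_mul_assoc, ← smul_mul_assoc, smul_sub, ← e1, ← e2, add_mul,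
      mul_assoc (Cst Y γ), EH, mul_add, mul_smul_comm, sub_mul, sub_mul, smul_mul_assoc, mul_assoc]
    abel

lemma InL.of_rec {e : ℕ → Y.W} (h : ∀ n, InL Y θ (e n - hb • e (n + 1))) : InL Y θ (e 0) := by
  choose a ha b hb' hab using h
  obtain ⟨A, hA, hA'⟩ := summW (PS θ ⊤) a ha
  obtain ⟨B, hB, hB'⟩ := summW (PS θ ⊤) b hb'
  refine ⟨A 0, hA 0, B 0, hB 0, sub_eq_zero.1 (sepW _ (dv_of_rec
    (e := fun n => e n - (A n * Cst Y He + B n * Cst Y Hh)) fun n => ?_))⟩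
  rw [hA' n, hB' n, eq_add_of_sub_eq (hab n), smul_sub, smul_add, add_mul, add_mul,
    smul_mul_assoc, smul_mul_assoc]
  abel

variable (Y θ)

/-- the ideal of the Hamiltonians in the invariants -/
def KL : Ideal (NS Y θ ⊤) where
  carrier := {w | InL Y θ w}
  add_mem' := InL.add
  zero_mem' := inL_zero
  smul_mem' c _ h := InL.mul_left h c.2.1

instance : (KL Y θ).IsTwoSided := ⟨fun c h => InL.mul_right h c.2⟩

/-- the reduction -/
abbrev MM : Type := NS Y θ ⊤ ⧸ KL Y θ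

/-- the quotient map -/
noncomputable def mkM : NS Y θ ⊤ →ₐ[ℂ⟦X⟧] MM Y θ := Ideal.Quotient.mkₐ ℂ⟦X⟧ (KL Y θ)

/-- local subalgebras -/
noncomputable def SbM (S : Subalgebra ℂ K) : Subalgebra ℂ⟦X⟧ (MM Y θ) :=
  ((NS Y θ S).comap (NS Y θ ⊤).val).map (mkM Y θ)

/-- the value of the constant term -/
noncomputable def pi0 : NS Y θ ⊤ →+* K where
  toFun w := piK θ (co Y 0 w)
  map_one' := by
    rw [OneMemClass.coe_one, co_zero_one]
    exact (piK_coe 1).trans (map_one θ)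
  map_mul' a b := by
    rw [MulMemClass.coe_mul, co_zero_mul, piK_mul (mem_NS.1 a.2 0) (mem_NS.1 b.2 0)]
  map_zero' := by
    rw [ZeroMemClass.coe_zero, map_zero]
    exact (piK_coe 0).trans (map_zero θ)
  map_add' a b := by
    rw [AddMemClass.coe_add, map_add, piK_add (mem_NS.1 a.2 0) (mem_NS.1 b.2 0)]

variable {Y θ}

lemma mkM_surj : Function.Surjective (mkM Y θ) := Ideal.Quotient.mkₐ_surjective _ _

lemma mkM_eq_zero {w : NS Y θ ⊤} : mkM Y θ w = 0 ↔ InL Y θ w := Ideal.Quotient.eq_zero_iff_mem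

lemma mkM_eq {a b : NS Y θ ⊤} : mkM Y θ a = mkM Y θ b ↔ InL Y θ ((a : Y.W) - b) := by
  rw [← sub_eq_zero, ← map_sub, mkM_eq_zero]
  rfl

lemma mem_SbM {x : MM Y θ} :
    x ∈ SbM Y θ S ↔ ∃ w : NS Y θ ⊤, (w : Y.W) ∈ NS Y θ S ∧ mkM Y θ w = x := Iff.rfl

lemma tfM (hreg : RowREG) : TF (MM Y θ) := by
  intro c hc
  obtain ⟨w, rfl⟩ := mkM_surj c
  rw [← map_smul, mkM_eq_zero] at hc
  exact mkM_eq_zero.2 (InL.tf hreg hc)

lemma sepM (hreg : RowREG) (t : MM Y θ) (h : ∀ n, Dv n t) : t = 0 := by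
  choose e he using h
  choose w hw using fun n => mkM_surj (e n)
  have h1 : ∀ n, e n - hb • e (n + 1) = 0 := fun n => (tfM hreg).pow n _ (by
    rw [smul_sub, smul_smul, ← pow_succ, ← he, ← he, sub_self])
  have h2 := InL.of_rec (Y := Y) (θ := θ) (e := fun n => w n) fun n => by
    have := h1 n
    rw [← hw, ← hw, ← map_smul, ← map_sub, mkM_eq_zero] at this
    exact this
  rw [he 0, pow_zero, one_smul, ← hw, mkM_eq_zero]
  exact h2

lemma summM (S : Subalgebra ℂ K) : Summ (SbM Y θ S) := by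
  intro e he
  choose w hw hw' using fun i => mem_SbM.1 (he i)
  obtain ⟨s, hs, hs'⟩ := summW (PS θ S ⊓ H56.Inv) (fun i => (w i : Y.W)) fun i => mem_NS.1 (hw i)
  have m : ∀ i, s i ∈ NS Y θ S := fun i => mem_NS.2 (hs i)
  refine ⟨fun i => mkM Y θ ⟨s i, NS_mono le_top (m i)⟩, fun i => ⟨_, m i, rfl⟩, fun i => ?_⟩
  rw [← hw', ← map_smul, ← map_add]
  exact congrArg _ (Subtype.ext (hs' i))

lemma SbM_top : SbM Y θ ⊤ = ⊤ := by
  refine eq_top_iff.2 fun x _ => ?_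
  obtain ⟨w, rfl⟩ := mkM_surj x
  exact ⟨w, w.2, rfl⟩

lemma ker_loc (hstr : RowSTR) (hθ : ∀ p : Pab, θ p = 0 → (p : F) ∈ JF) {k : K6}
    (hk : k ∈ IS θ S) (w : NS Y θ ⊤) (hw : (w : Y.W) ∈ NS Y θ S) (h0 : pi0 Y θ w = 0) :
    ∃ x ∈ SbM Y θ S, mkM Y θ w = hb • x := by
  obtain ⟨a, ha, b, hb', e⟩ := piK_ker hstr hθ hk (mem_NS.1 hw 0) h0
  have ma : Cst Y a ∈ NS Y θ S := mem_NS.2 (co_Cst_mem ha)
  have mb : Cst Y b ∈ NS Y θ S := mem_NS.2 (co_Cst_mem hb')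
  have m1 := Ehat_mem (Y := Y) hk
  have m2 := Hhat_mem (Y := Y) hk
  have hk' : k ∈ IS θ ⊤ := IS_mono le_top hk
  set l := Cst Y a * (Cst Y (zF 0 k)⁻¹ * Cst Y He) +
    Cst Y b * (Cst Y Hh + Cst Y (zF 1 k / zF 0 k) * Cst Y He) with hl
  have hL : InL Y θ l := by
    refine InL.add ((inL_E.mul_left (Cst_mem_SS (inv_mem_PI hk'))).mul_left
      (SS_mono le_top ma.1)) ((inL_H.add (inL_E.mul_left (Cst_mem_SS ?_))).mul_left
        (SS_mono le_top mb.1))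
    rw [div_eq_mul_inv]
    exact mul_mem (zF_mem_PI _ _ _) (inv_mem_PI hk')
  have m3 : (w : Y.W) - l ∈ NS Y θ S := sub_mem hw (add_mem (mul_mem ma m1) (mul_mem mb m2))
  have e1 := eq_hb_shift (w := (w : Y.W) - l) (by
    simp only [hl, map_sub, map_add, co_zero_mul, co_zero_Cst]
    exact sub_eq_zero.2 e)
  have m4 : shift Y ((w : Y.W) - l) ∈ NS Y θ S := mem_NS.2 fun n => by
    rw [co_shift]; exact mem_NS.1 m3 _
  refine ⟨mkM Y θ ⟨_, NS_mono le_top m4⟩, ⟨_, m4, rfl⟩, ?_⟩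
  rw [← map_smul, mkM_eq]
  change InL Y θ (w - hb • shift Y ((w : Y.W) - l))
  rwa [← e1, sub_sub_cancel]

variable (Y) in
/-- the reduction map -/
noncomputable def QM (hstr : RowSTR) (hθ : ∀ p : Pab, θ p = 0 ↔ (p : F) ∈ JF) :
    PQ K (MM Y θ) where
  π := Ideal.Quotient.lift (KL Y θ) (pi0 Y θ) (by
    rintro w ⟨a, ha, b, hb', e⟩
    have h1 := (mem_NS.1 w.2 0).2
    change piK θ (co Y 0 w) = 0
    rw [e, map_add, co_zero_mul, co_zero_mul, co_zero_Cst, co_zero_Cst] at h1 ⊢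
    exact piK_L (fun p => (hθ p).2) (ha 0) (hb' 0) h1)
  π_alg c := by
    change piK θ (co Y 0 (algebraMap ℂ⟦X⟧ Y.W c)) = _
    rw [co_alg, PowerSeries.coeff_zero_eq_constantCoeff_apply]
    exact (piK_coe (algebraMap ℂ Pab _)).trans (θ.commutes _)
  ker c hc := by
    obtain ⟨w, rfl⟩ := mkM_surj c
    obtain ⟨x, -, hx⟩ := ker_loc hstr (fun p => (hθ p).1) (k := (0, true))
      (by rw [IS_top]; exact Finset.mem_univ _) w w.2 hc
    exact ⟨x, hx⟩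

lemma QM_π (hstr : RowSTR) (hθ : ∀ p : Pab, θ p = 0 ↔ (p : F) ∈ JF) (w : NS Y θ ⊤) :
    (QM Y hstr hθ).π (mkM Y θ w) = piK θ (co Y 0 w) := rfl

end Quantum

theorem rowEXM (hstar : RowSTAR) (hreg : RowREG) (hstr : RowSTR) : RowEXM := by
  intro K _ _ ι hι
  obtain ⟨Y⟩ := hstar F S18 dF S18.dual S18.sgn dF_comm S18.dual_dual S18.sgn_dual
  let θ : Pab →ₐ[ℂ] K := ι.comp mkO
  have hθ : ∀ p : Pab, θ p = 0 ↔ (p : F) ∈ JF := fun p => by
    rw [← mkO_eq_zero, ← map_eq_zero_iff ι hι]; rfl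
  have hC : ∀ p : Pab, Cst Y (p : F) ∈ NS Y θ ⊤ := fun p =>
    mem_NS.2 (co_Cst_mem ⟨PI_le_PS (by rw [IS_top]; exact p.2.1), p.2.2⟩)
  refine ⟨MM Y θ, inferInstance, inferInstance, QM Y hstr hθ, SbM Y θ, tfM hreg,
    seqComplete_of (SbM_top (Y := Y) (θ := θ) ▸ summM ⊤) (sepM hreg),
    inducesVia_of _ (tfM hreg) _ _ fun f g => ?_, fun S S' h => ?_, fun S hS => ?_⟩
  · obtain ⟨p, rfl⟩ := mkO_surj f
    obtain ⟨q, rfl⟩ := mkO_surj g
    have m1 : Cst Y (p : F) * Cst Y (q : F) - Cst Y (q : F) * Cst Y (p : F) ∈ NS Y θ ⊤ :=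
      sub_mem (mul_mem (hC p) (hC q)) (mul_mem (hC q) (hC p))
    have m2 : shift Y (Cst Y (p : F) * Cst Y (q : F) - Cst Y (q : F) * Cst Y (p : F)) ∈
        NS Y θ ⊤ := mem_NS.2 fun n => by rw [co_shift]; exact mem_NS.1 m1 _
    refine ⟨mkM Y θ ⟨_, hC p⟩, mkM Y θ ⟨_, hC q⟩, mkM Y θ ⟨_, m2⟩, ?_, ?_, ?_, ?_⟩
    · rw [QM_π, co_zero_Cst, piK_coe]; rfl
    · rw [QM_π, co_zero_Cst, piK_coe]; rfl
    · rw [← map_mul, ← map_mul, ← map_sub, ← map_smul]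
      exact congrArg _ (Subtype.ext (eq_hb_shift (co_zero_comm _ _)))
    · have := Y.coeff_one_comm (Cst Y (p : F)) (Cst Y (q : F))
      rw [← co_def, ← co_def, ← co_def, co_zero_Cst, co_zero_Cst] at this
      rw [QM_π, co_shift, zero_add, this, brO_mkO]
      exact piK_coe (brb p q)
  · rintro _ ⟨w, hw, rfl⟩
    exact ⟨w, NS_mono h hw, rfl⟩
  · obtain ⟨k, hk1, hk2⟩ := hS
    have hk : k ∈ IS θ S := mem_IS.2 fun p hp => hk1 ⟨mkO p, ⟨p, hp, rfl⟩, rfl⟩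
    have hsub : (QM Y hstr hθ).Sub S (SbM Y θ S) := by
      refine ⟨?_, fun z hz => ?_, ?_⟩
      · rintro _ ⟨w, hw, rfl⟩
        exact piK_mem hstr hk (mem_NS.1 hw 0)
      · obtain ⟨_, ⟨_, ⟨g, hg, rfl⟩, rfl⟩, h1, h2, _, ⟨p, hp, rfl⟩, h3⟩ := hk2 z hz
        have hle := PI_mono (Finset.singleton_subset_iff.2 hk)
        have hD : Den θ S g := ⟨hle hg.1, h1, h2⟩
        have m1 : Cst Y ((p : F) / g) ∈ NS Y θ S :=
          mem_NS.2 (co_Cst_mem (div_mem_PB hD ⟨hle hp.1, hp.2⟩))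
        refine ⟨mkM Y θ ⟨_, NS_mono le_top m1⟩, ⟨_, m1, rfl⟩, ?_⟩
        rw [QM_π, co_zero_Cst, piK_spec hD.ne (q := p) (mul_div_cancel₀ _ hD.ne_zero),
          div_eq_iff hD.ne]
        exact h3
      · rintro _ ⟨w, hw, rfl⟩ h0
        exact ker_loc hstr (fun p => (hθ p).1) hk w hw h0
    exact ⟨hsub, seqClosed_of (summM S) (sepM hreg) fun n c hc hd => hsub.dv_tf (tfM hreg) hc hd⟩

end Pool.Agent.MP_86c931_ag.H98
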