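import Pool.Agent.MP_86c931_ag.H56.RowsB

/-! Regular sequences on the zero fibre of the moment map of the Borel subalgebra. -/

namespace Pool.Agent.MP_86c931_ag.H98

open H56 MvPolynomial

section General

variable {T : Type} [CommRing T]

/-- `a` is not a zero divisor modulo `I` -/
def Rg (I : Ideal T) (a : T) : Prop := ∀ p, a * p ∈ I → p ∈ I

lemma mem_sup_one {I : Ideal T} {a p : T} :
    p ∈ I ⊔ Ideal.span {a} ↔ ∃ r, p - a * r ∈ I := by
  rw [Submodule.mem_sup]
  constructor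
  · rintro ⟨i, hi, z, hz, rfl⟩
    obtain ⟨r, rfl⟩ := Ideal.mem_span_singleton.1 hz
    exact ⟨r, by rwa [add_sub_cancel_right]⟩
  · rintro ⟨r, hr⟩
    exact ⟨_, hr, a * r, Ideal.mem_span_singleton.2 ⟨r, rfl⟩, sub_add_cancel _ _⟩

lemma Rg.mul {I : Ideal T} {a b : T} (ha : Rg I a) (hb : Rg I b) : Rg I (a * b) :=
  fun p hp => hb p (ha _ (by rwa [← mul_assoc]))

lemma Rg.of_unit {I : Ideal T} {a : T} (ha : IsUnit a) : Rg I a :=
  fun _ hp => (Ideal.unit_mul_mem_iff_mem I ha).1 hp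

lemma Rg.pow {I : Ideal T} {a : T} (ha : Rg I a) (m : ℕ) : Rg I (a ^ m) := by
  induction m with
  | zero => exact Rg.of_unit (by rw [pow_zero]; exact isUnit_one)
  | succ m ih => rw [pow_succ]; exact ih.mul ha

lemma Rg.swap {I : Ideal T} {a b : T} (ha : Rg I a) (hb : Rg (I ⊔ Ideal.span {a}) b) :
    Rg (I ⊔ Ideal.span {b}) a := by
  intro p hp
  obtain ⟨q, hq⟩ := mem_sup_one.1 hp
  obtain ⟨r, hr⟩ := mem_sup_one.1 (hb q (mem_sup_one.2 ⟨p, by
    have := I.neg_mem hq
    rwa [neg_sub] at this⟩))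
  refine mem_sup_one.2 ⟨r, ha _ ?_⟩
  have := I.add_mem hq (I.mul_mem_left b hr)
  convert this using 1
  ring

variable [Algebra ℂ T]

lemma pow_mul_lin (D : Derivation ℂ T T) {g : T} (hg : D (D g) = 0) (p : T) (n : ℕ) :
    (D.toLinearMap ^ (n + 1)) (g * p) =
      g * (D.toLinearMap ^ (n + 1)) p + ((n : T) + 1) * D g * (D.toLinearMap ^ n) p := by
  have e : ∀ (k : ℕ) (x : T), (D.toLinearMap ^ (k + 1)) x = D ((D.toLinearMap ^ k) x) :=
    fun k x => by rw [pow_succ']; rfl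
  induction n with
  | zero =>
    simp only [e, pow_zero, Module.End.one_apply, Derivation.leibniz, smul_eq_mul, Nat.cast_zero]
    ring
  | succ n ih =>
    rw [e, ih, e (n + 1), e n]
    simp only [map_add, Derivation.leibniz, smul_eq_mul, hg, Derivation.map_natCast,
      Derivation.map_one_eq_zero]
    push_cast
    ring

/-- an element that is linear for a locally nilpotent derivation -/
lemma Rg.of_lin (D : Derivation ℂ T T) (hD : ∀ p, ∃ n : ℕ, (D.toLinearMap ^ n) p = 0)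
    {I : Ideal T} (hI : ∀ p ∈ I, D p ∈ I) {g : T} (hg : D (D g) = 0) (h : Rg I (D g)) :
    Rg I g := by
  intro p hp
  have hI' : ∀ (n : ℕ), ∀ x ∈ I, (D.toLinearMap ^ n) x ∈ I := by
    intro n x hx
    induction n with
    | zero => exact hx
    | succ n ih => rw [pow_succ']; exact hI _ ih
  have key : ∀ n : ℕ, (D.toLinearMap ^ n) p ∈ I → p ∈ I := by
    intro n
    induction n with
    | zero => exact id
    | succ n ih =>
      intro hn
      have h1 := hI' (n + 1) _ hp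
      rw [pow_mul_lin D hg, I.add_mem_iff_right (I.mul_mem_left _ hn)] at h1
      have hu : IsUnit ((n : T) + 1) := by
        have := (IsUnit.mk0 ((n : ℂ) + 1) (Nat.cast_add_one_ne_zero n)).map (algebraMap ℂ T)
        simpa using this
      exact ih (((Rg.of_unit hu).mul h) _ h1)
  obtain ⟨n, hn⟩ := hD p
  exact key n (hn ▸ I.zero_mem)

lemma st_sup (D : Derivation ℂ T T) {I : Ideal T} (hI : ∀ p ∈ I, D p ∈ I) {g : T}
    (hg : D g = 0) : ∀ p ∈ I ⊔ Ideal.span {g}, D p ∈ I ⊔ Ideal.span {g} := by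
  intro p hp
  obtain ⟨r, hr⟩ := mem_sup_one.1 hp
  refine mem_sup_one.2 ⟨D r, ?_⟩
  have := hI _ hr
  rwa [map_sub, Derivation.leibniz, hg, smul_zero, add_zero, smul_eq_mul] at this

end General

lemma nilp (s : S18) (p : P) : ∃ n : ℕ, ((pderiv s : Derivation ℂ P P).toLinearMap ^ n) p = 0 := by
  have mono : ∀ (n k : ℕ) (x : P), ((pderiv s : Derivation ℂ P P).toLinearMap ^ n) x = 0 →
      ((pderiv s : Derivation ℂ P P).toLinearMap ^ (k + n)) x = 0 := fun n k x h => by
    rw [pow_add, Module.End.mul_apply, h, map_zero]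
  induction p using MvPolynomial.induction_on with
  | C a => exact ⟨1, by rw [pow_one]; exact pderiv_C⟩
  | add p q hp hq =>
    obtain ⟨n, hn⟩ := hp
    obtain ⟨k, hk⟩ := hq
    exact ⟨k + n, by rw [map_add, mono n k p hn, add_comm k n, mono k n q hk, add_zero]⟩
  | mul_X p i hp =>
    obtain ⟨n, hn⟩ := hp
    refine ⟨n + 1, ?_⟩
    rw [mul_comm, pow_mul_lin, hn, add_comm n 1, mono n 1 p hn, mul_zero, mul_zero, add_zero]
    rw [pderiv_X, Pi.single_apply]
    split_ifs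
    · exact pderiv_one
    · exact map_zero _

lemma dual_dual (k : K6) : k.dual.dual = k := by
  simp [K6.dual]

lemma sgn_unit (k : K6) : IsUnit (C k.sgn : P) := by
  refine IsUnit.map C (IsUnit.mk0 _ ?_)
  unfold K6.sgn
  split_ifs <;> simp

lemma pd_z (s : S18) (α : Fin 3) (k : K6) :
    pderiv s (zP α k) = if (α, k) = s then 1 else 0 := by
  rw [zP, pderiv_X, Pi.single_apply]

lemma pd_om_ne {α β γ : Fin 3} (h1 : α ≠ γ) (h2 : β ≠ γ) (k : K6) :
    pderiv (γ, k) (om (zP α) (zP β)) = 0 := by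
  simp [om, Derivation.leibniz, pd_z, h1, h2]

lemma pd_om {α β : Fin 3} (h : α ≠ β) (k : K6) :
    pderiv (β, k.dual) (om (zP α) (zP β)) = C k.sgn * zP α k := by
  rw [om, map_sum, Finset.sum_eq_single k]
  · simp [Derivation.leibniz, pd_z, h, smul_eq_C_mul]
  · intro l _ hl
    have : l.dual ≠ k.dual := fun e => hl (by rw [← dual_dual l, e, dual_dual])
    simp [Derivation.leibniz, pd_z, h, this]
  · simp

/-- ideals that only involve the variables of weight one with index in `S` -/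
def Dep (S : Finset K6) (I : Ideal P) : Prop :=
  ∀ s : S18, (s.1 = 0 → s.2 ∉ S) → ∀ p ∈ I, pderiv s p ∈ I

lemma dep_bot : Dep ∅ ⊥ := fun s _ p hp => by
  rw [Ideal.mem_bot.1 hp, map_zero]; exact Ideal.zero_mem _

lemma Dep.ins {S : Finset K6} {I : Ideal P} (h : Dep S I) (k : K6) (m : ℕ) :
    Dep (insert k S) (I ⊔ Ideal.span {zP 0 k ^ m}) := by
  intro s hs
  refine st_sup _ (h s fun e hh => hs e (Finset.mem_insert_of_mem hh)) ?_
  have : (0, k) ≠ s := by
    rintro rfl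
    exact hs rfl (Finset.mem_insert_self _ _)
  rw [Derivation.leibniz_pow, pd_z, if_neg this, smul_zero, smul_zero]

lemma fresh {S : Finset K6} (h : S.card < 6) : ∃ k, k ∉ S := by
  by_contra hh
  push Not at hh
  rw [Finset.eq_univ_of_forall hh] at h
  simp at h

lemma card_ins (S : Finset K6) (k : K6) : (insert k S).card ≤ S.card + 1 :=
  Finset.card_insert_le _ _

variable {S : Finset K6} {I : Ideal P}

lemma rg_x (h : Dep S I) {k : K6} (hk : k ∉ S) : Rg I (zP 0 k) := by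
  refine Rg.of_lin (pderiv (0, k)) (nilp _) (h _ fun _ => hk) ?_ ?_
  · rw [pd_z, if_pos rfl, pderiv_one]
  · rw [pd_z, if_pos rfl]; exact Rg.of_unit isUnit_one

lemma rg_om {β : Fin 3} (hβ : 0 ≠ β) {k : K6} (h : ∀ p ∈ I, pderiv (β, k.dual) p ∈ I)
    (hk : Rg I (zP 0 k)) : Rg I (om (zP 0) (zP β)) := by
  refine Rg.of_lin (pderiv (β, k.dual)) (nilp _) h ?_ ?_
  · rw [pd_om hβ, pderiv_C_mul, pd_z, if_neg (by simp [hβ]), mul_zero]
  · rw [pd_om hβ]; exact (Rg.of_unit (sgn_unit k)).mul hk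

lemma rg_He (h : Dep S I) (hS : S.card < 6) : Rg I HeP := by
  obtain ⟨k, hk⟩ := fresh hS
  exact rg_om (by decide) (h _ (by simp)) (rg_x h hk)

lemma rg_x1 (h : Dep S I) (hS : S.card < 5) {k : K6} (hk : k ∉ S) (m : ℕ) :
    Rg (I ⊔ Ideal.span {HeP}) (zP 0 k ^ m) :=
  ((rg_x h hk).pow m).swap (rg_He (h.ins k m) (by have := card_ins S k; omega))

lemma rg_Hh (h : Dep S I) (hS : S.card < 5) : Rg (I ⊔ Ideal.span {HeP}) HhP := by
  obtain ⟨k, hk⟩ := fresh (S := S) (by omega)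
  refine rg_om (k := k) (by decide) (st_sup _ (h _ (by simp)) ?_) ?_
  · exact pd_om_ne (by decide) (by decide) _
  · simpa only [pow_one] using rg_x1 h hS hk 1

lemma rg_x2 (h : Dep S I) (hS : S.card < 4) {k : K6} (hk : k ∉ S) (m : ℕ) :
    Rg (JP ⊔ I) (zP 0 k ^ m) := by
  have h1 := rg_Hh (h.ins k m) (by have := card_ins S k; omega)
  rw [sup_right_comm] at h1
  have h2 := (rg_x1 h (by omega) hk m).swap h1
  rwa [sup_assoc, ← Ideal.span_insert, sup_comm] at h2

lemma rg_a (k : K6) (m : ℕ) : Rg JP (zP 0 k ^ m) := by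
  simpa only [sup_bot_eq] using rg_x2 dep_bot (by simp) (Finset.notMem_empty k) m

lemma rg_b {k l : K6} (h : l ≠ k) (m : ℕ) : Rg (JP ⊔ Ideal.span {zP 0 k ^ m}) (zP 0 l ^ m) := by
  simpa only [bot_sup_eq] using rg_x2 (dep_bot.ins k m) (by simp) (k := l) (by simpa using h) m

lemma rg_c {k l j : K6} (h : j ≠ k) (h' : j ≠ l) (m : ℕ) :
    Rg (JP ⊔ Ideal.span {zP 0 k ^ m} ⊔ Ideal.span {zP 0 l ^ m}) (zP 0 j ^ m) := by
  have := rg_x2 ((dep_bot.ins k m).ins l m) (by
    have := card_ins (insert k ∅) l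
    have := card_ins ∅ k
    simp only [Finset.card_empty] at this
    omega) (k := j) (by simp [h, h']) m
  rwa [bot_sup_eq, ← sup_assoc] at this

section Koszul

variable {T κ : Type} [CommRing T] {J : Ideal T} {u : κ → T} {a b c : κ}

lemma koszul_one (ha : Rg J (u a)) (hb : Rg (J ⊔ Ideal.span {u a}) (u b)) (n : κ → T)
    (h : ∀ k l, u l * n k - u k * n l ∈ J) : ∃ p, ∀ k, n k - u k * p ∈ J := by
  obtain ⟨p, hp⟩ := mem_sup_one.1 (hb _ (mem_sup_one.2 ⟨_, h a b⟩))
  refine ⟨p, fun k => ha _ ?_⟩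
  have := J.add_mem (h k a) (J.mul_mem_left (u k) hp)
  convert this using 1
  ring

lemma koszul_two (ha : Rg J (u a)) (hb : Rg (J ⊔ Ideal.span {u a}) (u b))
    (hc : Rg (J ⊔ Ideal.span {u a} ⊔ Ideal.span {u b}) (u c)) (n : κ → κ → T)
    (h : ∀ k l j, u j * n k l - u l * n k j + u k * n l j ∈ J) :
    ∃ g : κ → T, ∀ k l, n k l - (u l * g k - u k * g l) ∈ J := by
  obtain ⟨g0, h0⟩ := mem_sup_one.1 (hc (n a b) (mem_sup_one.2 ⟨n a c, mem_sup_one.2 ⟨-n b c, by
    convert h a b c using 1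
    ring⟩⟩))
  obtain ⟨g1, h1⟩ := mem_sup_one.1 h0
  have key : ∀ k, ∃ r, (u k * g0 - n a k) - u a * r ∈ J := fun k =>
    mem_sup_one.1 (hb _ (mem_sup_one.2 ⟨-n b k - u k * g1, by
      convert J.sub_mem (h a b k) (J.mul_mem_left (u k) h1) using 1
      ring⟩))
  choose g hg using key
  refine ⟨g, fun k l => ha _ ?_⟩
  convert J.sub_mem (J.add_mem (h a k l) (J.mul_mem_left (u l) (hg k)))
    (J.mul_mem_left (u k) (hg l)) using 1
  ring

end Koszul

theorem rowREG : RowREG := by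
  refine ⟨fun k p hp => ?_, fun k p hp => ?_, fun a b h => ?_, fun m n h => ?_, fun m n h => ?_⟩
  · have := rg_x1 dep_bot (by simp) (Finset.notMem_empty k) 1
    rw [bot_sup_eq, pow_one] at this
    exact Ideal.mem_span_singleton.1 (this p (Ideal.mem_span_singleton.2 hp))
  · exact rg_a k 1 p (by rwa [pow_one])
  · have h1 := rg_Hh dep_bot (by simp)
    rw [bot_sup_eq] at h1
    obtain ⟨g, rfl⟩ := Ideal.mem_span_singleton.1 (h1 b (Ideal.mem_span_singleton.2
      ⟨-a, by linear_combination h⟩))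
    refine ⟨-g, ?_, by ring⟩
    have := rg_He dep_bot (by simp) (a - -g * HhP) (Ideal.mem_bot.2 (by linear_combination h))
    exact sub_eq_zero.1 (Ideal.mem_bot.1 this)
  · exact koszul_one (u := fun k => zP 0 k ^ m) (a := (0, true)) (b := (1, true)) (rg_a _ m)
      (rg_b (by decide) m) n h
  · exact koszul_two (u := fun k => zP 0 k ^ m) (a := (0, true)) (b := (1, true)) (c := (2, true))
      (rg_a _ m) (rg_b (by decide) m) (rg_c (by decide) (by decide) m) n h

end Pool.Agent.MP_86c931_ag.H98
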