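import Pool.Agent.MP_86c931_ag.H56.RowsA

/-! Universal property of truncated deformations of localized polynomial algebras. -/

namespace Pool.Agent.MP_86c931_ag.H98

open H56
open scoped PowerSeries

section Easy

variable {O C : Type} [CommRing O] [Algebra ℂ O] [Ring C] [Algebra ℂ⟦X⟧ C]

lemma pi_C (Q : PQ O C) (r : ℂ) :
    Q.π (algebraMap ℂ⟦X⟧ C (PowerSeries.C r)) = algebraMap ℂ O r := by
  rw [Q.π_alg, PowerSeries.constantCoeff_C]

lemma lift_adjoin (Q : PQ O C) {τ : Type} (w : τ → C) {f : O}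
    (hf : f ∈ Algebra.adjoin ℂ (Set.range fun t => Q.π (w t))) :
    ∃ a ∈ Algebra.adjoin ℂ⟦X⟧ (Set.range w), Q.π a = f := by
  induction hf using Algebra.adjoin_induction with
  | mem x hx =>
    obtain ⟨t, rfl⟩ := hx
    exact ⟨w t, Algebra.subset_adjoin ⟨t, rfl⟩, rfl⟩
  | algebraMap r => exact ⟨_, Subalgebra.algebraMap_mem _ _, pi_C Q r⟩
  | add x y _ _ hx hy =>
    obtain ⟨a, ha, rfl⟩ := hx
    obtain ⟨b, hb', rfl⟩ := hy
    exact ⟨a + b, add_mem ha hb', map_add _ _ _⟩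
  | mul x y _ _ hx hy =>
    obtain ⟨a, ha, rfl⟩ := hx
    obtain ⟨b, hb', rfl⟩ := hy
    exact ⟨a * b, mul_mem ha hb', map_mul _ _ _⟩

end Easy

theorem rowGen : RowGen := by
  intro O C _ _ _ _ Q N hN τ w C' hS hw c hc
  have hle : Algebra.adjoin ℂ⟦X⟧ (Set.range w) ≤ C' :=
    Algebra.adjoin_le (by rintro _ ⟨t, rfl⟩; exact hw t)
  have key : ∀ n : ℕ, ∃ a ∈ Algebra.adjoin ℂ⟦X⟧ (Set.range w), ∃ e ∈ C', c = a + hb ^ n • e := by
    intro n
    induction n with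
    | zero => exact ⟨0, zero_mem _, c, hc, by simp⟩
    | succ n ih =>
      obtain ⟨a, ha, e, he, rfl⟩ := ih
      obtain ⟨a', ha', h1⟩ := lift_adjoin Q w (hS.map_mem e he)
      obtain ⟨d, hd, h2⟩ := hS.ker (e - a') (sub_mem he (hle ha')) (by rw [map_sub, h1, sub_self])
      refine ⟨a + hb ^ n • a', add_mem ha (Subalgebra.smul_mem _ ha' _), d, hd, ?_⟩
      rw [pow_succ, mul_smul, ← h2, smul_sub]
      abel
  obtain ⟨a, ha, e, _, rfl⟩ := key N
  rwa [hN.1, add_zero]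

theorem rowPow : RowPow := by
  intro O C _ _ _ _ Q N hN O1 O2 C1 C2 h1 h2 hle u hu hO m hm
  have key : ∀ n : ℕ, ∃ j : ℕ, ∃ c ∈ C1, ∃ e ∈ C2, u ^ j * m = c + hb ^ n • e := by
    intro n
    induction n with
    | zero => exact ⟨0, 0, zero_mem _, m, hm, by simp⟩
    | succ n ih =>
      obtain ⟨j, c, hc, e, he, h⟩ := ih
      obtain ⟨i, hi⟩ := hO _ (h2.map_mem e he)
      obtain ⟨c', hc', h3⟩ := h1.surj _ hi
      obtain ⟨d, hd, h4⟩ := h2.ker (u ^ i * e - c')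
        (sub_mem (mul_mem (pow_mem (hle hu) _) he) (hle hc'))
        (by rw [map_sub, map_mul, map_pow, h3, sub_self])
      refine ⟨i + j, u ^ i * c + hb ^ n • c',
        add_mem (mul_mem (pow_mem hu _) hc) (Subalgebra.smul_mem _ hc' _), d, hd, ?_⟩
      rw [pow_add, mul_assoc, h, pow_succ, mul_smul, ← h4, smul_sub, mul_add, mul_smul_comm]
      abel
  obtain ⟨j, c, hc, e, _, h⟩ := key N
  exact ⟨j, by rwa [h, hN.1, add_zero]⟩

theorem rowUnit : RowUnit := by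
  intro O C _ _ _ _ Q N hN O' C' hS b hb' f hf h
  obtain ⟨g, hg, rfl⟩ := hS.surj f hf
  obtain ⟨e, he, h1⟩ := hS.ker (1 - b * g) (sub_mem (one_mem _) (mul_mem hb' hg))
    (by rw [map_sub, map_mul, h, map_one, sub_self])
  obtain ⟨e', he', h2⟩ := hS.ker (1 - g * b) (sub_mem (one_mem _) (mul_mem hg hb'))
    (by rw [map_sub, map_mul, mul_comm, h, map_one, sub_self])
  have r1 : b * (g * ∑ i ∈ Finset.range N, (hb • e) ^ i) = 1 := by
    have := mul_neg_geom_sum (hb • e) N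
    rw [smul_pow, hN.1, sub_zero, ← h1, sub_sub_cancel] at this
    rw [← mul_assoc, ← h1, this]
  have r2 : ((∑ i ∈ Finset.range N, (hb • e') ^ i) * g) * b = 1 := by
    have := geom_sum_mul_neg (hb • e') N
    rw [smul_pow, hN.1, sub_zero, ← h2, sub_sub_cancel] at this
    rw [mul_assoc, ← h2, this]
  have e1 := left_inv_eq_right_inv r2 r1
  refine ⟨_, ?_, r2, by rw [e1, r1]⟩
  exact mul_mem (sum_mem fun i _ => pow_mem (Subalgebra.smul_mem _ he' _) _) hg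

section Kernel

variable {O C : Type} [CommRing O] [Algebra ℂ O] [Ring C] [Algebra ℂ⟦X⟧ C]

lemma comm_of_gen {T : Type} [Ring T] [Algebra ℂ⟦X⟧ T] {S : Set T}
    (hS : Algebra.adjoin ℂ⟦X⟧ S = ⊤) (h : ∀ x ∈ S, ∀ y ∈ S, x * y = y * x) (x y : T) :
    x * y = y * x := by
  have hx : x ∈ Algebra.adjoin ℂ⟦X⟧ S := hS ▸ Algebra.mem_top
  have hy : y ∈ Algebra.adjoin ℂ⟦X⟧ S := hS ▸ Algebra.mem_top
  exact Algebra.commute_of_mem_adjoin_of_forall_mem_commute hy fun b hb' =>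
    (Algebra.commute_of_mem_adjoin_of_forall_mem_commute hx fun a ha => h b hb' a ha).symm

/-- the kernel of the reduction of an algebra generated by lifts of independent variables -/
lemma ker_gen {τ : Type} (v : τ → C) (hv : Algebra.adjoin ℂ⟦X⟧ (Set.range v) = ⊤)
    (hc : ∀ s t, Dv 1 (v s * v t - v t * v s)) (π : C →+* O)
    (hπ : ∀ c : ℂ⟦X⟧, π (algebraMap ℂ⟦X⟧ C c) = algebraMap ℂ O (PowerSeries.constantCoeff c))
    (hz : AlgebraicIndependent ℂ fun t => π (v t)) (c : C) (h0 : π c = 0) : Dv 1 c := by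
  have hgen : Algebra.adjoin ℂ⟦X⟧ (trMk C 1 '' Set.range v) = ⊤ := by
    rw [← AlgHom.map_adjoin, hv, Algebra.map_top, AlgHom.range_eq_top]
    exact trMk_surj 1
  let _ : CommRing (Tr C 1) :=
    { (inferInstance : Ring (Tr C 1)) with
      mul_comm := comm_of_gen hgen (by
        rintro _ ⟨_, ⟨s, rfl⟩, rfl⟩ _ ⟨_, ⟨t, rfl⟩, rfl⟩
        rw [← map_mul, ← map_mul, trMk_eq]
        exact hc s t) }
  let ι : ℂ →+* Tr C 1 := (algebraMap ℂ⟦X⟧ (Tr C 1)).comp PowerSeries.C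
  let ψ : MvPolynomial τ ℂ →+* Tr C 1 := MvPolynomial.eval₂Hom ι fun t => trMk C 1 (v t)
  have key : ∀ x : C, ∃ p : MvPolynomial τ ℂ, ψ p = trMk C 1 x ∧
      MvPolynomial.aeval (fun t => π (v t)) p = π x := by
    intro x
    have hx : x ∈ Algebra.adjoin ℂ⟦X⟧ (Set.range v) := hv ▸ Algebra.mem_top
    induction hx using Algebra.adjoin_induction with
    | mem x hx =>
      obtain ⟨t, rfl⟩ := hx
      exact ⟨MvPolynomial.X t, MvPolynomial.eval₂Hom_X' _ _ _, MvPolynomial.aeval_X _ _⟩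
    | algebraMap r =>
      refine ⟨MvPolynomial.C (PowerSeries.constantCoeff r), ?_, ?_⟩
      · rw [MvPolynomial.eval₂Hom_C]
        change trMk C 1 (algebraMap ℂ⟦X⟧ C (PowerSeries.C (PowerSeries.constantCoeff r))) = _
        rw [trMk_eq, ← map_sub]
        obtain ⟨d, hd⟩ : PowerSeries.X ∣ PowerSeries.C (PowerSeries.constantCoeff r) - r := by
          rw [PowerSeries.X_dvd_iff]; simp
        exact ⟨algebraMap ℂ⟦X⟧ C d, by rw [hd, map_mul, pow_one, Algebra.smul_def]⟩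
      · rw [MvPolynomial.aeval_C, hπ]
    | add x y _ _ hx hy =>
      obtain ⟨p, h1, h2⟩ := hx
      obtain ⟨q, h3, h4⟩ := hy
      exact ⟨p + q, by rw [map_add, map_add, h1, h3], by rw [map_add, map_add, h2, h4]⟩
    | mul x y _ _ hx hy =>
      obtain ⟨p, h1, h2⟩ := hx
      obtain ⟨q, h3, h4⟩ := hy
      exact ⟨p * q, by rw [map_mul, map_mul, h1, h3], by rw [map_mul, map_mul, h2, h4]⟩
  obtain ⟨p, h1, h2⟩ := key c
  have hp : p = 0 := hz (by rw [h2, h0, map_zero])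
  rw [hp, map_zero] at h1
  exact trMk_eq_zero.1 h1.symm

/-- the Ore condition -/
lemma ore {N : ℕ} (hN : ∀ c : C, hb ^ N • c = 0) (hc : ∀ a b : C, Dv 1 (a * b - b * a))
    (V g : C) : ∃ (i : ℕ) (g' : C), V ^ i * g = g' * V := by
  have key : ∀ n : ℕ, ∃ (i : ℕ) (g' e : C), V ^ i * g = g' * V + hb ^ n • e := by
    intro n
    induction n with
    | zero => exact ⟨0, 0, g, by simp⟩
    | succ n ih =>
      obtain ⟨i, g', e, h⟩ := ih
      obtain ⟨d, hd⟩ := hc V e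
      refine ⟨i + 1, V * g' + hb ^ n • e, d, ?_⟩
      rw [pow_succ', mul_assoc, h, pow_add hb, mul_smul, ← hd, smul_sub, mul_add, add_mul,
        mul_smul_comm, smul_mul_assoc, mul_assoc]
      abel
  obtain ⟨i, g', e, h⟩ := key N
  exact ⟨i, g', by rw [h, hN, add_zero]⟩

end Kernel

section Graph

variable {G M B : Type} [Ring G] [Algebra ℂ⟦X⟧ G] [Ring M] [Algebra ℂ⟦X⟧ M] [Ring B]
  [Algebra ℂ⟦X⟧ B]

/-- the graph of the extension to the localization -/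
def graph (f : G →ₐ[ℂ⟦X⟧] M) (f' : G →ₐ[ℂ⟦X⟧] B) (U : G)
    (hO : ∀ V g : G, ∃ (i : ℕ) (g' : G), V ^ i * g = g' * V) : Subalgebra ℂ⟦X⟧ (M × B) where
  carrier := {x | ∃ (j : ℕ) (g : G), f U ^ j * x.1 = f g ∧ f' U ^ j * x.2 = f' g}
  mul_mem' := by
    rintro x y ⟨j, g, h1, h2⟩ ⟨k, g', h3, h4⟩
    obtain ⟨i, g2, h⟩ := hO (U ^ k) g
    have e1 := congrArg f h
    have e2 := congrArg f' h
    simp only [map_mul, map_pow] at e1 e2
    refine ⟨k * i + j, g2 * g', ?_, ?_⟩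
    · rw [Prod.fst_mul, pow_add, pow_mul, mul_assoc, ← mul_assoc (f U ^ j), h1, ← mul_assoc, e1,
        mul_assoc, h3, map_mul]
    · rw [Prod.snd_mul, pow_add, pow_mul, mul_assoc, ← mul_assoc (f' U ^ j), h2, ← mul_assoc, e2,
        mul_assoc, h4, map_mul]
  add_mem' := by
    rintro x y ⟨j, g, h1, h2⟩ ⟨k, g', h3, h4⟩
    refine ⟨k + j, U ^ k * g + U ^ j * g', ?_, ?_⟩
    · rw [Prod.fst_add, mul_add, map_add, map_mul, map_mul, map_pow, map_pow, ← h1, ← h3,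
        ← mul_assoc, ← mul_assoc, ← pow_add, ← pow_add, add_comm j k]
    · rw [Prod.snd_add, mul_add, map_add, map_mul, map_mul, map_pow, map_pow, ← h2, ← h4,
        ← mul_assoc, ← mul_assoc, ← pow_add, ← pow_add, add_comm j k]
  algebraMap_mem' r := ⟨0, algebraMap ℂ⟦X⟧ G r, by simp, by simp⟩

/-- extension of a homomorphism to a localization -/
lemma extend (f : G →ₐ[ℂ⟦X⟧] M) (f' : G →ₐ[ℂ⟦X⟧] B) (U : G)
    (hO : ∀ V g : G, ∃ (i : ℕ) (g' : G), V ^ i * g = g' * V) (hker : ∀ g, f g = 0 → f' g = 0)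
    (hU : IsUnit (f' U)) (hM : ∀ m, ∃ (j : ℕ) (g : G), f U ^ j * m = f g) :
    ∃ φ : M →ₐ[ℂ⟦X⟧] B, ∀ (m : M) (j : ℕ) (g : G), f U ^ j * m = f g → f' U ^ j * φ m = f' g := by
  let p : graph f f' U hO →ₐ[ℂ⟦X⟧] M := (AlgHom.fst ℂ⟦X⟧ M B).comp (graph f f' U hO).val
  have hb : ∀ (j : ℕ) (g : G), ∃ b, f' U ^ j * b = f' g := fun j g => by
    obtain ⟨v, hv⟩ := hU.pow j
    exact ⟨↑v⁻¹ * f' g, by rw [← hv, Units.mul_inv_cancel_left]⟩
  have hinj : Function.Injective p := by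
    rw [injective_iff_map_eq_zero]
    rintro ⟨⟨m, b⟩, j, g, h1, h2⟩ h
    have hm : m = 0 := h
    subst hm
    have h3 : f' U ^ j * b = 0 := h2.trans (hker g (by rw [← h1]; exact mul_zero _))
    rw [(hU.pow j).mul_right_eq_zero] at h3
    subst h3
    rfl
  have hsurj : Function.Surjective p := fun m => by
    obtain ⟨j, g, h⟩ := hM m
    obtain ⟨b, hb'⟩ := hb j g
    exact ⟨⟨(m, b), j, g, h, hb'⟩, rfl⟩
  let e := AlgEquiv.ofBijective p ⟨hinj, hsurj⟩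
  refine ⟨((AlgHom.snd ℂ⟦X⟧ M B).comp (graph f f' U hO).val).comp e.symm.toAlgHom, ?_⟩
  intro m j g h
  obtain ⟨b, hb'⟩ := hb j g
  have : e.symm m = ⟨(m, b), j, g, h, hb'⟩ := by
    rw [AlgEquiv.symm_apply_eq]; rfl
  change f' U ^ j * (e.symm m : M × B).2 = _
  rw [this]
  exact hb'

end Graph

theorem rowUniv : RowUniv := by
  intro Ot O M B _ _ _ _ _ _ _ _ Q1 Q2 N t1 t2 s1 s2 q τ z hz M1 hM1 A hA hqA hloc J w b hw hwz
    cw hbz cb
  let G : Subalgebra ℂ⟦X⟧ (M × B) := Algebra.adjoin ℂ⟦X⟧ (Set.range fun t => (w t, b t))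
  let v : τ → G := fun t => ⟨(w t, b t), Algebra.subset_adjoin ⟨t, rfl⟩⟩
  let f : G →ₐ[ℂ⟦X⟧] M := (AlgHom.fst ℂ⟦X⟧ M B).comp G.val
  let f' : G →ₐ[ℂ⟦X⟧] B := (AlgHom.snd ℂ⟦X⟧ M B).comp G.val
  have ext : ∀ g g' : G, f g = f g' → f' g = f' g' → g = g' := fun g g' h h' =>
    Subtype.ext (Prod.ext h h')
  have hN : ∀ g : G, hb ^ N • g = 0 := fun g =>
    ext _ _ (by rw [map_smul, t1.1, map_zero]) (by rw [map_smul, t2.1, map_zero])
  have hv : Algebra.adjoin ℂ⟦X⟧ (Set.range v) = ⊤ := by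
    have := Algebra.adjoin_adjoin_coe_preimage (R := ℂ⟦X⟧)
      (s := Set.range fun t => (w t, b t))
    rw [← this]
    congr 1
    ext x
    constructor
    · rintro ⟨t, rfl⟩; exact ⟨t, rfl⟩
    · rintro ⟨t, ht⟩; exact ⟨t, Subtype.ext ht⟩
  have hc : ∀ s t, Dv 1 (v s * v t - v t * v s) := fun s t => by
    refine ⟨algebraMap ℂ⟦X⟧ G (PowerSeries.C (J s t)), ?_⟩
    obtain ⟨d, hd⟩ := cw s t
    obtain ⟨d', hd'⟩ := cb s t
    rw [t1.1, sub_eq_zero] at hd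
    rw [t2.1, sub_eq_zero] at hd'
    rw [pow_one, Algebra.smul_def, ← map_mul]
    refine ext _ _ ?_ ?_
    · rw [AlgHom.commutes, ← hd]; rfl
    · rw [AlgHom.commutes, ← hd']; rfl
  have hzw : (fun t => Q1.π (w t)) = z := funext hwz
  let π : G →+* Ot := Q1.π.comp f.toRingHom
  have hker : ∀ g : G, Q1.π (f g) = 0 → Dv 1 g :=
    ker_gen v hv hc π (fun c => by
      change Q1.π (f _) = _
      rw [AlgHom.commutes, Q1.π_alg]) (by
        change AlgebraicIndependent ℂ fun t => Q1.π (w t)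
        rwa [hzw])
  have hinj : ∀ g : G, f g = 0 → f' g = 0 := fun g hg => by
    have key : ∀ n ≤ N, Dv n g := by
      intro n hn
      induction n with
      | zero => exact Dv.triv g
      | succ n ih =>
        obtain ⟨d, rfl⟩ := ih (n.le_succ.trans hn)
        obtain ⟨e, rfl⟩ := hker d (t1.2 n hn _ (by rw [← map_smul, hg]))
        exact ⟨e, by rw [pow_add, mul_smul]⟩
    obtain ⟨d, rfl⟩ := key N le_rfl
    rw [hN, map_zero]
  have hcomp : ∀ g : G, Q2.π (f' g) = q (Q1.π (f g)) := fun g => by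
    have hx : g ∈ Algebra.adjoin ℂ⟦X⟧ (Set.range v) := hv ▸ Algebra.mem_top
    induction hx using Algebra.adjoin_induction with
    | mem x hx =>
      obtain ⟨t, rfl⟩ := hx
      exact (hbz t).trans (congrArg q (hwz t).symm)
    | algebraMap r => rw [AlgHom.commutes, AlgHom.commutes, Q1.π_alg, Q2.π_alg, AlgHom.commutes]
    | add x y _ _ hx hy => simp only [map_add, hx, hy]
    | mul x y _ _ hx hy => simp only [map_mul, hx, hy]
  have hsur : ∀ m ∈ M1, ∃ g : G, f g = m := fun m hm => by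
    have h1 := rowGen Ot M Q1 N t1 τ w M1 (by rwa [hzw]) hw hm
    have h2 : Algebra.adjoin ℂ⟦X⟧ (Set.range w) ≤ f.range :=
      Algebra.adjoin_le (by rintro _ ⟨t, rfl⟩; exact ⟨v t, rfl⟩)
    exact h2 h1
  obtain ⟨u, hu, huA⟩ := hM1.surj A hA
  obtain ⟨U, rfl⟩ := hsur u hu
  have hU : Q2.π (f' U) = q A := by rw [hcomp, huA]
  have hunit : IsUnit (f' U) := by
    obtain ⟨a, ha⟩ := hqA.exists_right_inv
    obtain ⟨b', _, h1, h2⟩ := rowUnit O B Q2 N t2 ⊤ ⊤ (Q2.sub_top s2) (f' U) trivial a trivial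
      (by rw [hU, ha])
    exact ⟨⟨f' U, b', h2, h1⟩, rfl⟩
  have hM : ∀ m, ∃ (j : ℕ) (g : G), f U ^ j * m = f g := fun m => by
    obtain ⟨j, hj⟩ := rowPow Ot M Q1 N t1 _ ⊤ M1 ⊤ hM1 (Q1.sub_top s1) le_top (f U) hu
      (fun x _ => by rw [huA]; exact hloc x) m trivial
    obtain ⟨g, hg⟩ := hsur _ hj
    exact ⟨j, g, hg.symm⟩
  obtain ⟨φ, hφ⟩ := extend f f' U (ore hN fun x y => hker _ (by
    rw [map_sub, map_sub, map_mul, map_mul, map_mul, map_mul, mul_comm, sub_self])) hinj hunit hM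
  refine ⟨φ, fun t => ?_, fun m => ?_⟩
  · have := hφ (w t) 0 (v t) (by rw [pow_zero, one_mul]; rfl)
    rwa [pow_zero, one_mul] at this
  · obtain ⟨j, g, h⟩ := hM m
    have h1 := congrArg Q2.π (hφ m j g h)
    rw [hcomp, ← h, map_mul, map_mul, map_mul, map_pow, map_pow, map_pow, hU, huA] at h1
    exact (hqA.pow j).mul_left_cancel h1

theorem rowUL : RowUL := ⟨rowGen, rowPow, rowUnit, rowUniv⟩

end Pool.Agent.MP_86c931_ag.H98
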